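import Pool.Agent.Helper7.OV.Goals2

/-!
# Project OV, packet LAT
-/

set_option autoImplicit false

open Finset

namespace Pool.Agent.Helper34.OV.LAT

open Pool.Agent.Helper7.OV

theorem sum_sub (m : ℕ) : 2 * ∑ j ∈ range m, (m - j) = m * (m + 1) := by
  have h1 : ∑ j ∈ range m, (m - j) = ∑ j ∈ range m, (j + 1) := by
    rw [← sum_range_reflect (fun j => j + 1) m]
    refine sum_congr rfl fun j hj => ?_
    have := mem_range.1 hj
    omega
  rw [h1]
  induction m with
  | zero => simp
  | succ m ih =>
    rw [sum_range_succ, mul_add]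
    have h2 : ∑ j ∈ range m, (m - j) = ∑ j ∈ range m, (j + 1) := by
      rw [← sum_range_reflect (fun j => j + 1) m]
      refine sum_congr rfl fun j hj => ?_
      have := mem_range.1 hj
      omega
    rw [ih h2]
    ring

theorem fib (s t n j : ℕ) (ht : 1 ≤ t) (hj : j < n * t) :
    t * ((range (n * s)).filter (fun i => i * t + j * s < n * s * t)).card ≤
      s * (n * t - j) + t := by
  have h1 : (range (n * s)).filter (fun i => i * t + j * s < n * s * t) ⊆
      range ((s * (n * t - j) + t - 1) / t) := by
    intro i hi
    have h2 := (mem_filter.1 hi).2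
    obtain ⟨r, hr⟩ := Nat.exists_eq_add_of_lt hj
    have h3 : n * t - j = r + 1 := by omega
    rw [mem_range, Nat.lt_iff_add_one_le, Nat.le_div_iff_mul_le (by omega), h3]
    have h4 : n * s * t = s * (r + 1) + j * s := by
      calc n * s * t = s * (n * t) := by ring
        _ = s * (j + r + 1) := by rw [hr]
        _ = s * (r + 1) + j * s := by ring
    have h5 : (i + 1) * t = i * t + t := by ring
    omega
  have h2 := card_le_card h1
  rw [card_range] at h2
  calc t * ((range (n * s)).filter (fun i => i * t + j * s < n * s * t)).card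
      ≤ t * ((s * (n * t - j) + t - 1) / t) := Nat.mul_le_mul_left _ h2
    _ ≤ s * (n * t - j) + t - 1 := Nat.mul_div_le _ _
    _ ≤ s * (n * t - j) + t := Nat.sub_le _ _

theorem t : S_LAT := by
  intro s t n ht _
  have h1 : (((range (n * s)) ×ˢ (range (n * t))).filter
      (fun z => z.1 * t + z.2 * s < n * s * t)).card =
      ∑ j ∈ range (n * t), ((range (n * s)).filter (fun i => i * t + j * s < n * s * t)).card := by
    rw [card_filter, sum_product_right]
    exact sum_congr rfl fun j _ => (card_filter _ _).symm
  have h2 : t * ∑ j ∈ range (n * t),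
      ((range (n * s)).filter (fun i => i * t + j * s < n * s * t)).card ≤
      ∑ j ∈ range (n * t), (s * (n * t - j) + t) := by
    rw [mul_sum]
    exact sum_le_sum fun j hj => fib s t n j ht (mem_range.1 hj)
  rw [sum_add_distrib, sum_const, card_range, smul_eq_mul, ← mul_sum] at h2
  have h3 := sum_sub (n * t)
  rw [h1]
  refine Nat.le_of_mul_le_mul_left ?_ (Nat.lt_of_lt_of_le Nat.zero_lt_one ht)
  calc t * (2 * ∑ j ∈ range (n * t),
        ((range (n * s)).filter (fun i => i * t + j * s < n * s * t)).card)
      = 2 * (t * ∑ j ∈ range (n * t),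
        ((range (n * s)).filter (fun i => i * t + j * s < n * s * t)).card) := by ring
    _ ≤ 2 * (s * ∑ j ∈ range (n * t), (n * t - j) + n * t * t) := Nat.mul_le_mul_left _ h2
    _ = s * (2 * ∑ j ∈ range (n * t), (n * t - j)) + 2 * (n * t * t) := by ring
    _ = t * (n ^ 2 * s * t + n * s + 2 * n * t) := by
      rw [h3]
      ring

end Pool.Agent.Helper34.OV.LAT
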