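import Pool.Agent.Helper84.OV.Zero

/-!
# Project OV, packet WDT
-/

set_option autoImplicit false

open Finset

namespace Pool.Agent.Helper34.OV.WDT

open Pool.Agent.Helper84.OV

theorem w3_alg {A : Type} [CommRing A] (F F1 F2 g g1 h : Fin 3 → A) (E E1 : A)
    (h1 : ∀ i, F1 i * E = g i) (h2 : ∀ i, F2 i * E + F1 i * E1 = g1 i)
    (h3 : ∀ i, g1 i * E = h i) : w3 F F1 F2 * E ^ 3 = w3 F g h := by
  have h4 : ∀ i, F2 i * E ^ 2 = h i - g i * E1 := fun i => by
    linear_combination E * h2 i + h3 i - E1 * h1 i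
  have h5 : w3 F F1 F2 * E ^ 3 = w3 F (fun i => F1 i * E) (fun i => F2 i * E ^ 2) := by
    unfold w3
    ring
  rw [h5]
  simp only [h1, h4]
  unfold w3
  ring

theorem ff_eq (Ψ : R2 →+* PowerSeries ℚ) (uh vh : PowerSeries ℚ) (B : Fin 3 → R2) (i : Fin 3) :
    ff Ψ uh vh B i = (![1, uh, vh] : Fin 3 → PowerSeries ℚ) i * Ψ (B i) := by
  fin_cases i <;> simp [ff]

theorem naD0 (G : R2) (B : Fin 3 → R2) : naD G B 0 = DG G (B 0) * EE := by
  simp only [naD, naX, naY, DG, Matrix.cons_val_zero]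
  ring

theorem naD1 (G : R2) (B : Fin 3 → R2) : naD G B 1 = etu G * B 1 + DG G (B 1) * EE := by
  change Polynomial.derivative G * (EE * dX (B 1) + YY ^ 2 * (1 - XX) * (1 - YY) * B 1) -
    dX G * (EE * Polynomial.derivative (B 1) - XX * YY * (1 - XX) ^ 2 * B 1) = _
  unfold etu DG
  ring

theorem naD2 (G : R2) (B : Fin 3 → R2) : naD G B 2 = etv G * B 2 + DG G (B 2) * EE := by
  change Polynomial.derivative G * (EE * dX (B 2) + XX * YY * (1 - YY) ^ 2 * B 2) -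
    dX G * (EE * Polynomial.derivative (B 2) - XX ^ 2 * (1 - XX) * (1 - YY) * B 2) = _
  unfold etv DG
  ring

theorem dd_mul (f g : PowerSeries ℚ) : dd (f * g) = dd f * g + f * dd g := by
  have h := (PowerSeries.derivative ℚ).leibniz f g
  simp only [smul_eq_mul] at h
  linear_combination h

theorem one (G : R2) (p q : ℤ) (Ψ : R2 →+* PowerSeries ℚ) (uh vh : PowerSeries ℚ)
    (B : Fin 3 → R2) (hb : Br G p q Ψ) (hu : UV G p q Ψ uh vh) (i : Fin 3) :
    dd (ff Ψ uh vh B i) * Ψ EE = ff Ψ uh vh (naD G B) i := by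
  fin_cases i
  · have h0 : ff Ψ uh vh B 0 = Ψ (B 0) := by simp [ff]
    have h1 : ff Ψ uh vh (naD G B) 0 = Ψ (naD G B 0) := by simp [ff]
    show dd (ff Ψ uh vh B 0) * Ψ EE = ff Ψ uh vh (naD G B) 0
    rw [h0, h1, naD0, hb.der, map_mul]
  · have h0 : ff Ψ uh vh B 1 = uh * Ψ (B 1) := by simp [ff]
    have h1 : ff Ψ uh vh (naD G B) 1 = uh * Ψ (naD G B 1) := by simp [ff]
    show dd (ff Ψ uh vh B 1) * Ψ EE = ff Ψ uh vh (naD G B) 1
    rw [h0, h1, naD1, dd_mul, hb.der, map_add, map_mul, map_mul]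
    linear_combination Ψ (B 1) * hu.du
  · have h0 : ff Ψ uh vh B 2 = vh * Ψ (B 2) := by simp [ff]
    have h1 : ff Ψ uh vh (naD G B) 2 = vh * Ψ (naD G B 2) := by simp [ff]
    show dd (ff Ψ uh vh B 2) * Ψ EE = ff Ψ uh vh (naD G B) 2
    rw [h0, h1, naD2, dd_mul, hb.der, map_add, map_mul, map_mul]
    linear_combination Ψ (B 2) * hu.dv

theorem t : S_WDT := by
  intro G p q Ψ uh vh B hb hu
  refine ⟨one G p q Ψ uh vh B hb hu, fun i j => ?_, ?_⟩
  · have hi := one G p q Ψ uh vh B hb hu i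
    have hj := one G p q Ψ uh vh B hb hu j
    rw [ff_eq Ψ uh vh (naD G B) i] at hi
    rw [ff_eq Ψ uh vh (naD G B) j] at hj
    have fi := ff_eq Ψ uh vh B i
    have fj := ff_eq Ψ uh vh B j
    simp only [w2, map_sub, map_mul]
    generalize (![1, uh, vh] : Fin 3 → PowerSeries ℚ) i = di at *
    generalize (![1, uh, vh] : Fin 3 → PowerSeries ℚ) j = dj at *
    generalize Ψ EE = E at *
    calc (ff Ψ uh vh B i * dd (ff Ψ uh vh B j) - dd (ff Ψ uh vh B i) * ff Ψ uh vh B j) * E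
        = ff Ψ uh vh B i * (dd (ff Ψ uh vh B j) * E) -
          ff Ψ uh vh B j * (dd (ff Ψ uh vh B i) * E) := by ring
      _ = _ := by
        rw [hi, hj, fi, fj]
        ring
  · rw [w3_alg (ff Ψ uh vh B) (fun i => dd (ff Ψ uh vh B i)) (fun i => dd (dd (ff Ψ uh vh B i)))
      (ff Ψ uh vh (naD G B)) (fun i => dd (ff Ψ uh vh (naD G B) i))
      (ff Ψ uh vh (naD G (naD G B))) (Ψ EE) (dd (Ψ EE))
      (one G p q Ψ uh vh B hb hu) (fun i => ?_) (one G p q Ψ uh vh (naD G B) hb hu)]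
    · simp only [w3, map_add, map_sub, map_mul]
      simp [ff]
      ring
    · rw [← one G p q Ψ uh vh B hb hu i, dd_mul]

end Pool.Agent.Helper34.OV.WDT
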